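import Pool.Agent.H99.GC.Chart
import Pool.Agent.H8.FX.Def

/-! # FX.Cht : a chart of the base curve of a fibre product `X = W_1 ×_B ... ×_B W_c` (definitions only, no sorry)

The same data as `GB.Chart`; `C.col j : GB.Chart (X.W j) P` is the chart of the `j`-th surface: `(C.col j).t = C.t`, `(C.col j).bp = C.bp`, `(C.col j).inf = C.inf`, .. by `rfl`. -/

namespace FX

open ES H68.BB GB

variable {K : Type} [Field K] [IsAlgClosed K] {s c : ℕ}

/-- a chart of the base curve of `X` -/
structure Cht (X : XD K s c) {R : Type} [CommRing R] [Algebra K R] (P : OnePt K R) where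
  /-- the coordinates -/
  t : Fin s → R
  /-- the pole order of the frame at infinity -/
  m : ℕ
  /-- the zeros of the frame -/
  U : Multiset (R →ₐ[K] K)
  mpos : 0 < m
  I : ∀ f ∈ X.I, MvPolynomial.aeval t f = 0
  deg : ∀ i, P.Lt (m * X.v i + 1) (t i)
  top : ∃ i, t i ≠ 0 ∧ P.deg (t i) = m * X.v i
  ord : ∀ i, t i ≠ 0 → X.v i • U ≤ zk K (t i)
  reg : Reg K U
  nz : ∀ b : R →ₐ[K] K, b ∉ U → ∃ i, b (t i) ≠ 0

variable {X : XD K s c} {R : Type} [CommRing R] [Algebra K R] {P : OnePt K R} (C : Cht X P)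

/-- the chart of the `j`-th surface -/
def Cht.col (j : Fin c) : GB.Chart (X.W j) P := ⟨C.t, C.m, C.U, C.mpos, C.I, C.deg, C.top, C.ord, C.reg, C.nz⟩

/-- from a chart of one surface to the chart of `X` -/
def Cht.of (j0 : Fin c) (C : GB.Chart (X.W j0) P) : Cht X P := ⟨C.t, C.m, C.U, C.mpos, C.I, C.deg, C.top, C.ord, C.reg, C.nz⟩

/-- the coordinates of a point of the base -/
def Cht.bp {F : Type} [Field F] [Algebra K F] (β : R →ₐ[K] F) : Fin s → F := fun i => β (C.t i)

/-- the coordinates of the point at infinity -/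
def Cht.inf : Fin s → K := fun i => if P.deg (C.t i) = C.m * X.v i then P.lc (C.t i) else 0

/-- `a_j` as a function on the base -/
noncomputable def Cht.A (j : Fin c) : R := MvPolynomial.aeval C.t (X.a j)

/-- `b_j` as a function on the base -/
noncomputable def Cht.B (j : Fin c) : R := MvPolynomial.aeval C.t (X.b j)

/-- the degree of `O(1)` -/
def Cht.d : ℕ := C.m - C.U.card

/-- the base vector is a point of the chart outside `U`, or the point at infinity -/
def Cht.In (β : Fin s → K) : Prop :=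
  (∃ e : K, e ≠ 0 ∧ ∃ b : R →ₐ[K] K, b ∉ C.U ∧ β = fun i => e ^ X.v i * C.bp b i) ∨
    ∃ e : K, e ≠ 0 ∧ β = fun i => e ^ X.v i * C.inf i

theorem Cht.col_bp {F : Type} [Field F] [Algebra K F] (j : Fin c) (β : R →ₐ[K] F) : (C.col j).bp β = C.bp β := rfl

theorem Cht.col_inf (j : Fin c) : (C.col j).inf = C.inf := rfl

theorem Cht.col_A (j : Fin c) : (C.col j).A = C.A j := rfl

theorem Cht.col_B (j : Fin c) : (C.col j).B = C.B j := rfl

theorem Cht.col_n (j : Fin c) : (C.col j).n = X.n j * C.d := rfl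

end FX
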