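import Pool.Agent.H79.FX.Cht
import Pool.Agent.H8.FX.Cls
import Pool.Agent.H67.ES.Mdef

/-! # FX.Chx : THE MAIN THEOREM OVER A CHART (statement; interface of the modules `FinX` and `MainX`)

The proof is in `MainX` (helper79). -/

namespace FX

open ES H68.BB GB

variable {K : Type} [Field K] [IsAlgClosed K] {s c k : ℕ} {X : XD K s c} {R : Type} [CommRing R] [Algebra K R] {P : OnePt K R}

/-- the hypotheses of the main theorem over a chart: one surface has a singular fibre at infinity, no surface is isotrivial, `k` is large -/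
structure Cht.Good (C : Cht X P) (k : ℕ) : Prop where
  inf : ∃ j, dd (X.W j) C.inf = 0
  ab : ∀ j, ∀ e e' : K, e • C.A j ^ 3 = e' • C.B j ^ 2 → e = 0 ∧ e' = 0
  d : 0 < C.d
  k : (∑ j, X.n j) * C.d + P.g ≤ k

/-- the statement of the main theorem over all charts -/
def MainStmt (K : Type) [Field K] [IsAlgClosed K] : Prop :=
  ∀ {s c k : ℕ} {X : XD K s c} {R : Type} [CommRing R] [Algebra K R] {P : OnePt K R} (C : Cht X P), X.Ok → 0 < c → C.Good k →
    ∀ {Q : Fin k → Row s c K}, (∀ i, OnX X (Q i)) → (∀ i, C.In (Q i).β) → IsOfFinAddOrder (clsX X Q)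

end FX
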