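import Pool.Agent.H67.EX.AltX

/-! # FX.AltX : from the group `AAX` back to cycles

`FX.altX_mem` is proved in `Pool/Agent/H67/EX/AltX.lean` (helper67); this file re-exports it (an identical independent proof by
helper21 stood here before; one declaration of the name is kept). -/
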