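import Pool.Agent.H79.FX.Chx
import Pool.Agent.H79.FX.AltX
import Pool.Agent.H99.RR.YRes

/-! # FX.FinX : from the main theorem over charts to all base curves (about 200 lines)

Adaptation of `RR.main_rr` (`Pool/Agent/H99/RR/Fin.lean`) and `RR.main_sm` (`YRes.lean`) to `c` columns.
`W := X.W j0`, `j0 = ⟨0, hc⟩`; `exists_emb` (for `W`), `emb_deg`, `ri_A` as in `main_sm` give a curve `Y`, `M : Emb Y (X.W j0)` with `0 < M.E.degree ≤ d`, `Y.RI g`.  `hab'`: for all `j`, `e • aeval M.t (X.a j) ^ 3 = e' • aeval M.t (X.b j) ^ 2 → e = 0 ∧ e' = 0` (as `hab` in `main_sm`: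
`C e * a_j^3 - C e' * b_j^2` is weighted homogeneous of degree `12 n_j`).
`exists_q` (for `W = X.W j0`): `dd (X.W j0) (M.bt q) = 0`.  `M.surj` for the `(Q i).β` (`≠ 0` by `OnX.ne`, equations `OnX.I`).  `exists_chart` gives `C : GB.Chart (X.W j0) (Y.one h q)`; `C' := Cht.of j0 C : Cht X _`.  `C'.Good k`: `inf` as in `main_rr`; `ab j`: `(C'.A j : F) = u ^ (4 n_j) * aeval M.t (X.a j)` as in
`main_rr` for every `j`; `d`: `C'.d = C.m - C.U.card = M.E.degree`; `k`: `(∑ n_j) * M.E.degree + g' ≤ (∑ n_j) * d + g ≤ k` (`one_g`).  `C'.In (Q i).β` as in `main_rr` (without the case `β = 0`).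
The hypothesis `hM` gives `IsOfFinAddOrder (clsX X Q)`, so `N • clsX X Q = 0`, and `altX_mem`. -/

namespace FX

open ES H68.BB GB RR

variable {K : Type} [Field K] [IsAlgClosed K] [CharZero K] {s c d g : ℕ} {X : XD K s c}

/-- the main theorem for a base curve given by a function field and coordinates -/
private theorem main_rrX {F : Type} [Field F] [Algebra K F] (Y : Crv K F) (hM : MainStmt K) (hX : X.Ok) (j0 : Fin c)
    (h : Y.RI g) (M : Emb Y (X.W j0)) (hE : 0 < M.E.degree)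
    (hab : ∀ j, ∀ e e' : K, e • MvPolynomial.aeval M.t (X.a j) ^ 3 = e' • MvPolynomial.aeval M.t (X.b j) ^ 2 → e = 0 ∧ e' = 0)
    {k : ℕ} (hk : ((∑ j, X.n j : ℕ) : ℤ) * M.E.degree + g ≤ k) {Q : Fin k → Row s c K} (hQ : ∀ i, OnX X (Q i)) :
    ∃ N : ℕ, 0 < N ∧ N • altX Q ∈ RatX k X := by
  classical
  haveI := Y.ne
  have hx : MvPolynomial.aeval M.t (X.W j0).b ^ 2 - MvPolynomial.aeval M.t (X.W j0).a ^ 3 ≠ 0 := by
    intro h0
    have h1 := hab j0 1 1 (by
      rw [one_smul, one_smul]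
      exact (sub_eq_zero.1 h0).symm)
    exact one_ne_zero h1.1
  obtain ⟨q, hq⟩ := exists_q Y (hX.W j0) h M hE hx
  have hpt : ∀ i, ∃ p : Y.Pt, ∃ e : K, e ≠ 0 ∧ (Q i).β = fun l => e ^ X.v l * M.bt p l :=
    fun i => M.surj (Q i).β (hQ i).ne (hQ i).I
  choose p hp using hpt
  obtain ⟨C, u, hu, ht, hdeg, ⟨ci, hci, hinf⟩, hS⟩ := exists_chart Y (hX.W j0) h M q (Finset.univ.image p)
  have hdd : ES.dd (X.W j0) C.inf = 0 := by
    rw [hinf]
    unfold ES.dd
    rw [ES.ev_scale (hX.W j0).b, ES.ev_scale (hX.W j0).a]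
    have h1 : (ci ^ (6 * (X.W j0).n) * ES.ev (X.W j0).b (M.bt q)) ^ 2 - (ci ^ (4 * (X.W j0).n) * ES.ev (X.W j0).a (M.bt q)) ^ 3 =
        ci ^ (12 * (X.W j0).n) * ES.dd (X.W j0) (M.bt q) := by
      unfold ES.dd
      ring
    rw [h1, hq, mul_zero]
  have h3 : (fun i => ((C.t i : Y.R q) : F)) = fun i => u ^ X.v i * M.t i := funext ht
  have hA : ∀ j, (((Cht.of j0 C).A j : Y.R q) : F) = u ^ (4 * X.n j) * MvPolynomial.aeval M.t (X.a j) := by
    intro j
    have h1 : (((Cht.of j0 C).A j : Y.R q) : F) = MvPolynomial.aeval (fun i => ((C.t i : Y.R q) : F)) (X.a j) :=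
      MvPolynomial.comp_aeval_apply C.t (Y.R q).val (X.a j)
    rw [h1, h3]
    exact ES.ev_scale (hX.a j) u M.t
  have hB : ∀ j, (((Cht.of j0 C).B j : Y.R q) : F) = u ^ (6 * X.n j) * MvPolynomial.aeval M.t (X.b j) := by
    intro j
    have h1 : (((Cht.of j0 C).B j : Y.R q) : F) = MvPolynomial.aeval (fun i => ((C.t i : Y.R q) : F)) (X.b j) :=
      MvPolynomial.comp_aeval_apply C.t (Y.R q).val (X.b j)
    rw [h1, h3]
    exact ES.ev_scale (hX.b j) u M.t
  have hd : (((Cht.of j0 C).d : ℕ) : ℤ) = M.E.degree := by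
    have h1 : (Cht.of j0 C).d = C.m - C.U.card := rfl
    rw [h1, ← hdeg]
    push_cast [Nat.cast_sub (show C.U.card ≤ C.m by omega)]
    ring
  have hG : (Cht.of j0 C).Good k := by
    refine ⟨⟨j0, hdd⟩, ?_, ?_, ?_⟩
    · intro j e e' hee
      apply hab j
      have h1 : ((e • (Cht.of j0 C).A j ^ 3 : Y.R q) : F) = ((e' • (Cht.of j0 C).B j ^ 2 : Y.R q) : F) := by rw [hee]
      have h2 : e • (u ^ (4 * X.n j) * MvPolynomial.aeval M.t (X.a j)) ^ 3 =
          e' • (u ^ (6 * X.n j) * MvPolynomial.aeval M.t (X.b j)) ^ 2 := by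
        rw [← hA, ← hB]
        exact h1
      have h3 : (u ^ (4 * X.n j) * MvPolynomial.aeval M.t (X.a j)) ^ 3 =
          u ^ (12 * X.n j) * MvPolynomial.aeval M.t (X.a j) ^ 3 := by ring
      have h4 : (u ^ (6 * X.n j) * MvPolynomial.aeval M.t (X.b j)) ^ 2 =
          u ^ (12 * X.n j) * MvPolynomial.aeval M.t (X.b j) ^ 2 := by ring
      rw [h3, h4, ← mul_smul_comm, ← mul_smul_comm] at h2
      exact mul_left_cancel₀ (pow_ne_zero _ hu) h2
    · have h1 : (0 : ℤ) < (((Cht.of j0 C).d : ℕ) : ℤ) := by rw [hd]; exact hE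
      exact_mod_cast h1
    · have h1 := one_g Y h q
      have h2 : (((∑ j, X.n j) * (Cht.of j0 C).d : ℕ) : ℤ) = ((∑ j, X.n j : ℕ) : ℤ) * M.E.degree := by
        rw [Nat.cast_mul, hd]
      omega
  have hfin := hM (Cht.of j0 C) hX (Fin.pos j0) hG hQ (fun i => by
    obtain ⟨e, he, he2⟩ := hp i
    by_cases hpq : p i = q
    · right
      refine ⟨e * ci⁻¹, mul_ne_zero he (inv_ne_zero hci), ?_⟩
      have h1 : (Cht.of j0 C).inf = C.inf := rfl
      rw [he2, h1, hinf, hpq]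
      funext l
      rw [mul_pow, inv_pow]
      have h1 : ci ^ X.v l ≠ 0 := pow_ne_zero _ hci
      show e ^ X.v l * M.bt q l = e ^ X.v l * (ci ^ X.v l)⁻¹ * (ci ^ X.v l * M.bt q l)
      field_simp
    · left
      obtain ⟨h1, c', hc', h2⟩ := hS (p i) (Finset.mem_image_of_mem p (Finset.mem_univ i)) hpq
      refine ⟨e * c'⁻¹, mul_ne_zero he (inv_ne_zero hc'), Y.e q (p i) hpq, h1, ?_⟩
      have h4 : (Cht.of j0 C).bp (Y.e q (p i) hpq) = C.bp (Y.e q (p i) hpq) := rfl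
      rw [he2, h4, h2]
      funext l
      rw [mul_pow, inv_pow]
      have h3 : c' ^ X.v l ≠ 0 := pow_ne_zero _ hc'
      show e ^ X.v l * M.bt (p i) l = e ^ X.v l * (c' ^ X.v l)⁻¹ * (c' ^ X.v l * M.bt (p i) l)
      field_simp)
  obtain ⟨N, hN, hN2⟩ := isOfFinAddOrder_iff_nsmul_eq_zero.1 hfin
  exact ⟨N, hN, altX_mem hX hN2⟩

omit [IsAlgClosed K] [CharZero K] in
/-- the value of a weighted homogeneous polynomial at the coordinates -/
private theorem yr_evX {W : ES.Wm K s} [hI : (Ideal.span W.I).IsPrime] {ρ : QF W.I} {t : Fin s → FF W.v W.I}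
    (ht : ∀ i, ((t i : FF W.v W.I) : QF W.I) =
      io (Ideal.Quotient.mk (Ideal.span W.I) (MvPolynomial.X i)) * ρ ^ W.v i)
    {q : MvPolynomial (Fin s) K} {m : ℕ} (hq : MvPolynomial.IsWeightedHomogeneous W.v q m) :
    ((MvPolynomial.aeval t q : FF W.v W.I) : QF W.I) = ρ ^ m * io (Ideal.Quotient.mk (Ideal.span W.I) q) := by
  have h1 : ((MvPolynomial.aeval t q : FF W.v W.I) : QF W.I) =
      MvPolynomial.aeval (fun i => ((t i : FF W.v W.I) : QF W.I)) q :=
    MvPolynomial.comp_aeval_apply t (FF W.v W.I).val q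
  have h2 : (fun i => ((t i : FF W.v W.I) : QF W.I)) =
      fun i => ρ ^ W.v i * io (Ideal.Quotient.mk (Ideal.span W.I) (MvPolynomial.X i)) := by
    funext i
    rw [ht i, mul_comm]
  have h3 := ES.ev_scale hq ρ (fun i => (io (Ideal.Quotient.mk (Ideal.span W.I) (MvPolynomial.X i)) : QF W.I))
  unfold ES.ev at h3
  rw [h1, h2, h3]
  congr 1
  have h4 : (MvPolynomial.aeval (fun i => (io (Ideal.Quotient.mk (Ideal.span W.I) (MvPolynomial.X i)) : QF W.I)) :
      MvPolynomial (Fin s) K →ₐ[K] QF W.I) =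
      (IsScalarTower.toAlgHom K (HR W.I) (QF W.I)).comp (Ideal.Quotient.mkₐ K (Ideal.span W.I)) := by
    apply MvPolynomial.algHom_ext
    intro i
    rw [MvPolynomial.aeval_X]
    rfl
  rw [h4]
  rfl

/-- **the main theorem for fibre products over a smooth projective curve** -/
theorem main_smX (hM : MainStmt K) (hX : X.Ok) (hc : 0 < c) (h : SmC X.v X.I d g)
    (hab : ∀ j, ∀ e e' : K, MvPolynomial.C e * X.a j ^ 3 - MvPolynomial.C e' * X.b j ^ 2 ∈ Ideal.span X.I → e = 0 ∧ e' = 0)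
    {k : ℕ} (hk : (∑ j, X.n j) * d + g ≤ k) {Q : Fin k → Row s c K} (hQ : ∀ i, OnX X (Q i)) :
    ∃ N : ℕ, 0 < N ∧ N • altX Q ∈ RatX k X := by
  have h' : SmC (X.W ⟨0, hc⟩).v (X.W ⟨0, hc⟩).I d g := h
  haveI := h'.prime
  obtain ⟨ρ, M, hρ0, hF, ht, hE⟩ := exists_emb (W := X.W ⟨0, hc⟩) h'
  obtain ⟨hE0, hEd⟩ := emb_deg h' hρ0 hF M.E hE
  refine main_rrX (crvA h') hM hX ⟨0, hc⟩ (ri_A h') M hE0 ?_ ?_ hQ
  · intro j e e' hce
    apply hab j e e'
    have hq : MvPolynomial.IsWeightedHomogeneous (X.W ⟨0, hc⟩).v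
        (MvPolynomial.C e * X.a j ^ 3 - MvPolynomial.C e' * X.b j ^ 2) (12 * X.n j) := by
      have ha : MvPolynomial.IsWeightedHomogeneous X.v (MvPolynomial.C e * X.a j ^ 3) (12 * X.n j) := by
        have h1 := (MvPolynomial.isWeightedHomogeneous_C X.v e).mul ((hX.a j).pow 3)
        rw [zero_add, smul_eq_mul, ← mul_assoc] at h1
        exact h1
      have hb : MvPolynomial.IsWeightedHomogeneous X.v (MvPolynomial.C e' * X.b j ^ 2) (12 * X.n j) := by
        have h1 := (MvPolynomial.isWeightedHomogeneous_C X.v e').mul ((hX.b j).pow 2)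
        rw [zero_add, smul_eq_mul, ← mul_assoc] at h1
        exact h1
      exact (MvPolynomial.weightedHomogeneousSubmodule K X.v (12 * X.n j)).sub_mem ha hb
    have h1 := yr_evX ht hq
    have h2 : (MvPolynomial.aeval M.t (MvPolynomial.C e * X.a j ^ 3 - MvPolynomial.C e' * X.b j ^ 2) :
        FF (X.W ⟨0, hc⟩).v (X.W ⟨0, hc⟩).I) = 0 := by
      rw [map_sub, map_mul, map_mul, map_pow, map_pow, MvPolynomial.aeval_C, MvPolynomial.aeval_C,
        ← Algebra.smul_def, ← Algebra.smul_def, hce, sub_self]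
    rw [h2] at h1
    have h3 : (io (Ideal.Quotient.mk (Ideal.span (X.W ⟨0, hc⟩).I)
        (MvPolynomial.C e * X.a j ^ 3 - MvPolynomial.C e' * X.b j ^ 2)) : QF (X.W ⟨0, hc⟩).I) = 0 := by
      rcases mul_eq_zero.1 h1.symm with h4 | h4
      · exact absurd h4 (pow_ne_zero _ hρ0)
      · exact h4
    have h4 : Ideal.Quotient.mk (Ideal.span (X.W ⟨0, hc⟩).I)
        (MvPolynomial.C e * X.a j ^ 3 - MvPolynomial.C e' * X.b j ^ 2) = 0 :=
      (IsFractionRing.injective (HR (X.W ⟨0, hc⟩).I) (QF (X.W ⟨0, hc⟩).I)) (by rw [h3, map_zero])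
    exact Ideal.Quotient.eq_zero_iff_mem.1 h4
  · have h1 : ((∑ j, X.n j : ℕ) : ℤ) * M.E.degree ≤ ((∑ j, X.n j : ℕ) : ℤ) * d :=
      mul_le_mul_of_nonneg_left hEd (by positivity)
    have h2 : (((∑ j, X.n j) * d + g : ℕ) : ℤ) ≤ k := by exact_mod_cast hk
    rw [Nat.cast_add, Nat.cast_mul] at h2
    linarith

end FX
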